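import Pool.Agent.L7h82.NF.Det

/-!
# Project NF: part BOX (boxes exist)
-/

set_option autoImplicit false

open Set Filter Topology Metric Function
open scoped Manifold ContDiff

noncomputable section

namespace Pool.Agent.L7h82.NF

open Pool.Agent.Y522 Pool.Agent.L7h20.NF Pool.Agent.Y47.SH

section

variable {m : ℕ} {X : Type} [TopologicalSpace X] [ChartedSpace (E (m + 1)) X]

theorem det_equiv_ne (T : E (m + 1) ≃L[ℝ] E (m + 1)) :
    (T : E (m + 1) →L[ℝ] E (m + 1)).det ≠ 0 := by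
  have h1 : ((T : E (m + 1) →L[ℝ] E (m + 1)).comp
      (T.symm : E (m + 1) →L[ℝ] E (m + 1))).det = 1 := by
    rw [ContinuousLinearEquiv.coe_comp_coe_symm]
    unfold ContinuousLinearMap.det
    simp
  intro h0
  rw [det_comp', h0, zero_mul] at h1
  exact zero_ne_one h1

/-- the map in coordinates is differentiable -/
theorem diff_coord [IsManifold (𝓡 (m + 1)) ∞ X] {F : X → E (m + 1)} (hF : Sm F)
    {A : E (m + 1) → X} {z : E (m + 1)} (hA : LD (m + 1) A z) (L : E (m + 1) ≃L[ℝ] E (m + 1)) :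
    DifferentiableAt ℝ (fun w => L (F (A w))) z := by
  have h1 : ContMDiffAt (𝓡 (m + 1)) (𝓡 (m + 1)) ∞ (fun w => F (A w)) z :=
    (hF (A z)).comp z hA.contMDiffAt
  have h2 := (contMDiffAt_iff_contDiffAt.1 h1).differentiableAt (by simp)
  exact L.differentiableAt.comp z h2

/-- change of coordinates -/
theorem jac_comp [IsManifold (𝓡 (m + 1)) ∞ X] {F : X → E (m + 1)} (hF : Sm F)
    {A A' : E (m + 1) → X} {ψ : E (m + 1) → E (m + 1)} {z : E (m + 1)}
    (L L' : E (m + 1) ≃L[ℝ] E (m + 1)) (hA' : LD (m + 1) A' (ψ z)) (hψ : DifferentiableAt ℝ ψ z)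
    (hA : A =ᶠ[𝓝 z] fun w => A' (ψ w)) :
    jac F A L z = ((L'.symm.trans L : E (m + 1) ≃L[ℝ] E (m + 1)) :
      E (m + 1) →L[ℝ] E (m + 1)).det * jac F A' L' (ψ z) * (fderiv ℝ ψ z).det := by
  have h1 : HasFDerivAt (fun w => L' (F (A' w))) (dF F A' L' (ψ z)) (ψ z) :=
    (diff_coord hF hA' L').hasFDerivAt
  have h2 : HasFDerivAt (fun w => L' (F (A' (ψ w)))) ((dF F A' L' (ψ z)).comp (fderiv ℝ ψ z)) z :=
    h1.comp z hψ.hasFDerivAt
  have h3 : HasFDerivAt (fun w => (L'.symm.trans L) (L' (F (A' (ψ w)))))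
      (((L'.symm.trans L : E (m + 1) ≃L[ℝ] E (m + 1)) : E (m + 1) →L[ℝ] E (m + 1)).comp
        ((dF F A' L' (ψ z)).comp (fderiv ℝ ψ z))) z :=
    (L'.symm.trans L).hasFDerivAt.comp z h2
  have h4 : HasFDerivAt (fun w => L (F (A w)))
      (((L'.symm.trans L : E (m + 1) ≃L[ℝ] E (m + 1)) : E (m + 1) →L[ℝ] E (m + 1)).comp
        ((dF F A' L' (ψ z)).comp (fderiv ℝ ψ z))) z := by
    refine h3.congr_of_eventuallyEq ?_
    filter_upwards [hA] with w hw
    rw [hw]
    simp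
  unfold jac
  have h5 : dF F A L z = _ := h4.fderiv
  rw [h5, det_comp', det_comp', mul_assoc]

/-- the sign of the Jacobian is constant near every point -/
theorem sign_coord [IsManifold (𝓡 (m + 1)) ∞ X] {F : X → E (m + 1)} (hS : Setting F)
    {A : E (m + 1) → X} {z : E (m + 1)} (hA : LD (m + 1) A z) (L : E (m + 1) ≃L[ℝ] E (m + 1)) :
    (∀ᶠ w in 𝓝 z, 0 ≤ jac F A L w) ∨ (∀ᶠ w in 𝓝 z, jac F A L w ≤ 0) := by
  obtain ⟨A', L', z', hx, hco⟩ := hS.sign (A z)
  obtain ⟨g, hg, hgz, -, hgr⟩ := hco.ld.exists_inverse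
  rw [hx] at hg hgz hgr
  obtain ⟨ψ, hψ⟩ : ∃ ψ : E (m + 1) → E (m + 1), ψ = fun w => g (A w) := ⟨_, rfl⟩
  have hψL : LD (m + 1) ψ z := by
    rw [hψ]
    exact LD.comp_fun hg hA
  have hψz : ψ z = z' := by
    rw [hψ]
    exact hgz
  have hAe : ∀ᶠ w in 𝓝 z, A w = A' (ψ w) := by
    filter_upwards [hA.continuousAt.eventually hgr] with w hw
    rw [hψ]
    exact hw.symm
  have hψt : Tendsto ψ (𝓝 z) (𝓝 z') := by
    have := hψL.continuousAt
    rwa [ContinuousAt, hψz] at this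
  obtain ⟨c, hc⟩ : ∃ c : ℝ, c = ((L'.symm.trans L : E (m + 1) ≃L[ℝ] E (m + 1)) :
      E (m + 1) →L[ℝ] E (m + 1)).det := ⟨_, rfl⟩
  have hform : ∀ᶠ w in 𝓝 z, jac F A L w = c * jac F A' L' (ψ w) * (fderiv ℝ ψ w).det := by
    filter_upwards [hAe.eventually_nhds, hψt.eventually hco.ld.eventually, hψL.eventually]
      with w h1 h2 h3
    rw [hc]
    exact jac_comp hS.smooth L L' h2 (h3.contDiffAt.differentiableAt (by simp)) h1
  have hnn : ∀ᶠ w in 𝓝 z, 0 ≤ jac F A' L' (ψ w) := hψt.eventually hco.nn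
  -- the determinant of the derivative of `ψ`
  have hd0 : (fderiv ℝ ψ z).det ≠ 0 := by
    obtain ⟨B, hB⟩ := hψL.exists_equiv
    rw [hB.fderiv]
    exact det_equiv_ne B
  have hdc : ContinuousAt (fun w => (fderiv ℝ ψ w).det) z := by
    have h1 : ContinuousAt (fderiv ℝ ψ) z :=
      (hψL.contDiffAt.fderiv_right (m := 0) (by simp)).continuousAt
    exact ContinuousAt.comp (g := fun T : E (m + 1) →L[ℝ] E (m + 1) => T.det)
      contDiff_det.continuous.continuousAt h1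
  have hsgn : (∀ᶠ w in 𝓝 z, 0 < c * (fderiv ℝ ψ w).det) ∨
      (∀ᶠ w in 𝓝 z, c * (fderiv ℝ ψ w).det < 0) := by
    have hc0 : c ≠ 0 := by
      rw [hc]
      exact det_equiv_ne _
    have h1 : ContinuousAt (fun w => c * (fderiv ℝ ψ w).det) z := continuousAt_const.mul hdc
    rcases lt_or_gt_of_ne (mul_ne_zero hc0 hd0) with h | h
    · exact Or.inr (h1.eventually (gt_mem_nhds h))
    · exact Or.inl (h1.eventually (lt_mem_nhds h))
  rcases hsgn with h | h
  · left
    filter_upwards [h, hform, hnn] with w h1 h2 h3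
    rw [h2]
    have : c * jac F A' L' (ψ w) * (fderiv ℝ ψ w).det =
        (c * (fderiv ℝ ψ w).det) * jac F A' L' (ψ w) := by ring
    rw [this]
    exact mul_nonneg h1.le h3
  · right
    filter_upwards [h, hform, hnn] with w h1 h2 h3
    rw [h2]
    have : c * jac F A' L' (ψ w) * (fderiv ℝ ψ w).det =
        (c * (fderiv ℝ ψ w).det) * jac F A' L' (ψ w) := by ring
    rw [this]
    exact mul_nonpos_of_nonpos_of_nonneg h1.le h3

theorem det_scale {r : ℝ} (hr : 0 < r) {S : E (m + 1) →L[ℝ] E (m + 1)} (hS : ∀ v, S v = r • v) :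
    0 < S.det := by
  have h1 : (S : E (m + 1) →ₗ[ℝ] E (m + 1)) = r • (LinearMap.id : E (m + 1) →ₗ[ℝ] E (m + 1)) := by
    refine LinearMap.ext fun v => ?_
    simp [hS]
  unfold ContinuousLinearMap.det
  rw [h1, LinearMap.det_smul, LinearMap.det_id, mul_one]
  positivity

theorem det_refl {R : E (m + 1) →L[ℝ] E (m + 1)} (h0 : ∀ v, (R v) 0 = - v 0)
    (ht : ∀ v, tl (R v) = tl v) : R.det = -1 := by
  rw [det_tl ht, h0]
  rfl

end

theorem s_BOX : S_BOX := by
  intro m X _ _ _ F hF P x hPd W hW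
  have hFc : Continuous F := hF.smooth.continuous
  obtain ⟨pf, hpf⟩ : ∃ pf : X → E m, pf = fun y => P (F y) := ⟨_, rfl⟩
  have hPs : ∀ᶠ y in 𝓝 x, ContMDiffAt (𝓡 (m + 1)) (𝓡 m) ∞ pf y := by
    refine Eventually.of_forall fun y => ?_
    rw [hpf]
    exact (P.contMDiff.contMDiffAt).comp y (hF.smooth y)
  unfold Pool.Agent.L7h20.NF.Sub at hPd
  rw [← hpf] at hPd
  obtain ⟨φ, hφ⟩ : ∃ φ, φ = chartAt (E (m + 1)) x := ⟨_, rfl⟩
  have hxs : x ∈ φ.source := by rw [hφ]; exact mem_chart_source _ x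
  have hLD : LD (m + 1) φ x := by rw [hφ]; exact Pool.Agent.Y641.SH.LD_chart x
  obtain ⟨p, hp⟩ : ∃ p, p = φ x := ⟨_, rfl⟩
  obtain ⟨q, hq⟩ : ∃ q : E (m + 1) → E m, q = fun z => pf (φ.symm z) := ⟨_, rfl⟩
  have hpt : p ∈ φ.target := by rw [hp]; exact φ.map_source hxs
  have hpx : φ.symm p = x := by rw [hp]; exact φ.left_inv hxs
  have hsym : ∀ z ∈ φ.target, ContMDiffAt (𝓡 (m + 1)) (𝓡 (m + 1)) ∞ φ.symm z := by
    intro z hz
    rw [hφ] at hz ⊢
    exact (contMDiffOn_chart_symm z hz).contMDiffAt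
      ((chartAt (E (m + 1)) x).open_target.mem_nhds hz)
  have hqs : ∀ᶠ z in 𝓝 p, ContDiffAt ℝ ∞ q z := by
    have h1 : Tendsto φ.symm (𝓝 p) (𝓝 x) := by
      have := φ.symm.continuousAt (x := p) hpt
      rw [ContinuousAt, hpx] at this
      exact this
    filter_upwards [h1.eventually hPs, φ.open_target.mem_nhds hpt] with z hz hzt
    rw [hq]
    exact contMDiffAt_iff_contDiffAt.1 (hz.comp z (hsym z hzt))
  have hqp : ContDiffAt ℝ ∞ q p := hqs.self_of_nhds
  obtain ⟨D, hD⟩ : ∃ D, D = fderiv ℝ q p := ⟨_, rfl⟩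
  have hqd : HasFDerivAt q D p := by
    rw [hD]
    exact (hqp.differentiableAt (by simp)).hasFDerivAt
  have hqφ : ∀ᶠ y in 𝓝 x, pf y = q (φ y) := by
    filter_upwards [φ.open_source.mem_nhds hxs] with y hy
    rw [hq]
    simp only
    rw [φ.left_inv hy]
  have hDs : Surjective D := by
    have h1 : pf =ᶠ[𝓝 x] q ∘ φ := hqφ
    have h2 : MDifferentiableAt (𝓡 (m + 1)) (𝓡 m) q (φ x) := by
      rw [← hp]
      exact (hqp.differentiableAt (by simp)).mdifferentiableAt
    have h3 : MDifferentiableAt (𝓡 (m + 1)) (𝓡 (m + 1)) φ x :=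
      hLD.contMDiffAt.mdifferentiableAt (by simp)
    have h4 : mfderiv (𝓡 (m + 1)) (𝓡 m) pf x =
        D.comp (mfderiv (𝓡 (m + 1)) (𝓡 (m + 1)) φ x) := by
      rw [h1.mfderiv_eq, mfderiv_comp x h2 h3, mfderiv_eq_fderiv, ← hp, ← hD]
      rfl
    intro y
    obtain ⟨v, hv⟩ := hPd y
    rw [h4] at hv
    exact ⟨_, hv⟩
  have hPsurj : Surjective P := by
    refine surj_of_deriv (f := fun z => F (φ.symm z)) (Eventually.of_forall fun z => ?_) hqd hDs
    rw [hq, hpf]
  obtain ⟨L0, hL0⟩ := exists_tail P hPsurj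
  obtain ⟨B, hB⟩ := exists_tail D hDs
  -- adapted coordinates of the domain
  obtain ⟨h, hh⟩ : ∃ h : E (m + 1) → E (m + 1),
      h = fun z => B (z - p) + inc (q z - q p - D (z - p)) := ⟨_, rfl⟩
  have hhd : HasFDerivAt h (B : E (m + 1) →L[ℝ] E (m + 1)) p := by
    rw [hh]
    have h1 : HasFDerivAt (fun z : E (m + 1) => z - p) (ContinuousLinearMap.id ℝ _) p :=
      (hasFDerivAt_id p).sub_const p
    have h2 : HasFDerivAt (fun z : E (m + 1) => B (z - p)) (B : E (m + 1) →L[ℝ] E (m + 1)) p := by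
      have := (B : E (m + 1) →L[ℝ] E (m + 1)).hasFDerivAt.comp p h1
      rw [ContinuousLinearMap.comp_id] at this
      exact this
    have h3 : HasFDerivAt (fun z : E (m + 1) => D (z - p)) D p := by
      have := D.hasFDerivAt.comp p h1
      rw [ContinuousLinearMap.comp_id] at this
      exact this
    have h4 : HasFDerivAt (fun z : E (m + 1) => q z - q p - D (z - p)) (D - D) p :=
      (hqd.sub_const (q p)).sub h3
    have h5 := h2.add ((inc : E m →L[ℝ] E (m + 1)).hasFDerivAt.comp p h4)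
    have h6 : (B : E (m + 1) →L[ℝ] E (m + 1)) + (inc : E m →L[ℝ] E (m + 1)).comp (D - D) = B := by
      rw [sub_self, ContinuousLinearMap.comp_zero, add_zero]
    rw [h6] at h5
    exact h5
  have hhs : ∀ᶠ z in 𝓝 p, ContDiffAt ℝ ∞ h z := by
    filter_upwards [hqs] with z hz
    rw [hh]
    have h1 : ContDiffAt ℝ ∞ (fun z : E (m + 1) => z - p) z :=
      contDiffAt_id.sub contDiffAt_const
    exact (B.contDiff.contDiffAt.comp z h1).add
      ((inc : E m →L[ℝ] E (m + 1)).contDiff.contDiffAt.comp z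
        ((hz.sub contDiffAt_const).sub (D.contDiff.contDiffAt.comp z h1)))
  have hhLD : LD (m + 1) h p := LD_of_contDiffAt hhs B hhd
  have hGLD : LD (m + 1) (fun y => h (φ y)) x := by
    rw [hp] at hhLD
    exact LD.comp_fun hhLD hLD
  have hG0 : h (φ x) = 0 := by
    simp only [hh, ← hp, sub_self, map_zero, add_zero]
  have hGt : ∀ᶠ y in 𝓝 x, tl (h (φ y)) = pf y - pf x := by
    filter_upwards [hqφ] with y hy
    rw [hy, hqφ.self_of_nhds, ← hp, hh]
    simp only [map_add, hB, inc_apply, tl_cn]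
    abel
  obtain ⟨A0, hA0, hA0x, -, hA0r⟩ := hGLD.exists_inverse
  simp only [hG0] at hA0 hA0x hA0r
  have hA0t : Tendsto A0 (𝓝 0) (𝓝 x) := by
    have := hA0.continuousAt
    rw [ContinuousAt, hA0x] at this
    exact this
  -- the equivalence of the target with the right sign
  obtain ⟨R, hRs, hRt, hRn⟩ : ∃ R : E (m + 1) ≃L[ℝ] E (m + 1), True ∧
      (∀ v, tl (R v) = tl v) ∧ ∀ᶠ w in 𝓝 (0 : E (m + 1)), 0 ≤ jac F A0 (L0.trans R) w := by
    rcases sign_coord hF hA0 L0 with hs | hs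
    · refine ⟨ContinuousLinearEquiv.refl ℝ _, trivial, fun v => rfl, ?_⟩
      exact hs
    · obtain ⟨R, hR0, hRt⟩ := exists_refl m
      refine ⟨R, trivial, hRt, ?_⟩
      filter_upwards [hs, hA0.eventually] with w hw hw1
      have h1 := jac_comp (A := A0) (A' := A0) (ψ := fun w => w) (z := w) hF.smooth (L0.trans R) L0
        hw1 differentiableAt_fun_id (Eventually.of_forall fun _ => rfl)
      have h2 : (fderiv ℝ (fun w : E (m + 1) => w) w).det = 1 := by
        have : fderiv ℝ (fun w : E (m + 1) => w) w = ContinuousLinearMap.id ℝ _ := fderiv_fun_id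
        rw [this]
        unfold ContinuousLinearMap.det
        simp
      have h3 : ((L0.symm.trans (L0.trans R) : E (m + 1) ≃L[ℝ] E (m + 1)) :
          E (m + 1) →L[ℝ] E (m + 1)).det = -1 := by
        apply det_refl
        · intro v
          simp [hR0]
        · intro v
          simp [hRt]
      rw [h2, h3] at h1
      rw [h1]
      linarith
  have hev : ∀ᶠ z in 𝓝 (0 : E (m + 1)), LD (m + 1) A0 z ∧ h (φ (A0 z)) = z ∧
      pf (A0 z) = tl z + pf x ∧ A0 z ∈ W ∧ ∀ᶠ w in 𝓝 z, 0 ≤ jac F A0 (L0.trans R) w := by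
    filter_upwards [hA0.eventually, hA0r, hA0t.eventually hGt, hA0t.eventually hW,
      hRn.eventually_nhds] with z h1 h2 h4 h5 h6
    refine ⟨h1, h2, ?_, h5, h6⟩
    rw [h2] at h4
    rw [h4]
    abel
  obtain ⟨ρ, hρ, hρs⟩ := Metric.eventually_nhds_iff.1 hev
  obtain ⟨r, hr, hrρ⟩ : ∃ r : ℝ, 0 < r ∧ 2 * r < ρ := ⟨ρ / 3, by positivity, by linarith⟩
  have hbox : ∀ z ∈ box m 1 1, dist (r • z) 0 < ρ := by
    rintro z ⟨h1, h2⟩
    rw [dist_zero_right, norm_smul, Real.norm_of_nonneg hr.le]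
    have h3 : ‖z‖ ≤ 2 := by
      have h4 := norm_sq_split z
      have h5 : (z 0) ^ 2 ≤ 1 := by
        have := sq_abs (z 0)
        nlinarith [abs_nonneg (z 0)]
      nlinarith [norm_nonneg (tl z), norm_nonneg z]
    nlinarith
  have hr' : r⁻¹ ≠ 0 := inv_ne_zero hr.ne'
  obtain ⟨S, hS⟩ := exists_scale (m + 1) r hr.ne'
  obtain ⟨S', hS'⟩ := exists_scale (m + 1) r⁻¹ hr'
  obtain ⟨A, hA⟩ : ∃ A : E (m + 1) → X, A = fun z => A0 (r • z) := ⟨_, rfl⟩
  have hAinj : InjOn A (box m 1 1) := by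
    intro z hz z' hz' hzz
    rw [hA] at hzz
    simp only at hzz
    have h1 := (hρs (hbox z hz)).2.1
    have h2 := (hρs (hbox z' hz')).2.1
    rw [hzz, h2] at h1
    exact (smul_right_injective _ hr.ne' h1).symm
  have hALD : ∀ z ∈ box m 1 1, LD (m + 1) A z := by
    intro z hz
    have h1 : LD (m + 1) (fun z => A0 (S z)) z := by
      refine LD.comp_fun ?_ (LD_linear S z)
      rw [hS]
      exact (hρs (hbox z hz)).1
    refine h1.congr (Eventually.of_forall fun w => ?_)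
    rw [hA]
    simp only [hS]
  obtain ⟨b, hb⟩ : ∃ b : E m, b = r⁻¹ • pf x := ⟨_, rfl⟩
  obtain ⟨L, hL⟩ : ∃ L : E (m + 1) ≃L[ℝ] E (m + 1), L = (L0.trans R).trans S' := ⟨_, rfl⟩
  have hLv : ∀ v, tl (L v) = r⁻¹ • P v := by
    intro v
    rw [hL]
    simp only [ContinuousLinearEquiv.trans_apply]
    rw [hS', map_smul, hRt, hL0]
  refine ⟨A, L, b, by rw [hA]; simpa using hA0x, ⟨hAinj, hALD, ?_, ⟨r⁻¹, by positivity, hLv⟩, ?_⟩,
    ?_⟩
  · intro z hz
    have h1 := (hρs (hbox z hz)).2.2.1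
    have h2 : A0 (r • z) = A z := by rw [hA]
    rw [h2] at h1
    have h3 : P (F (A z)) = pf (A z) := by rw [hpf]
    rw [hLv, h3, h1, map_smul, smul_add, smul_smul, inv_mul_cancel₀ hr.ne', one_smul, hb]
  · intro z hz
    have h1 := (hρs (hbox z hz)).2.2.2.2
    have h2 := (hρs (hbox z hz)).1.eventually
    have h3 : Tendsto (fun w : E (m + 1) => r • w) (𝓝 z) (𝓝 (r • z)) :=
      (continuous_const_smul r).tendsto z
    filter_upwards [h3.eventually h1, h3.eventually h2] with w hw1 hw2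
    have hSd : HasFDerivAt (fun w : E (m + 1) => r • w) (S : E (m + 1) →L[ℝ] E (m + 1)) w := by
      have : (fun w : E (m + 1) => r • w) = fun w => S w := by
        funext w
        rw [hS]
      rw [this]
      exact S.hasFDerivAt
    have h4 := jac_comp (A := A) (A' := A0) (ψ := fun w => r • w) (z := w) hF.smooth L (L0.trans R)
      hw2 hSd.differentiableAt (Eventually.of_forall fun _ => by rw [hA])
    rw [hSd.fderiv] at h4
    rw [h4]
    have h5 : 0 < (((L0.trans R).symm.trans L : E (m + 1) ≃L[ℝ] E (m + 1)) :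
        E (m + 1) →L[ℝ] E (m + 1)).det := by
      refine det_scale (inv_pos.2 hr) fun v => ?_
      rw [hL, ← hS']
      simp
    exact mul_nonneg (mul_nonneg h5.le hw1) (det_scale hr hS).le
  · intro z hz
    have h1 := (hρs (hbox z hz)).2.2.2.1
    rw [hA]
    exact h1

end Pool.Agent.L7h82.NF
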