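import Pool.Agent.L7h20.NF.Stm

/-!
# Project NF: parts DET1, DET2 (linear algebra of the determinant)
-/

set_option autoImplicit false

open Set Filter Topology Metric Function
open scoped Manifold ContDiff

noncomputable section

namespace Pool.Agent.L7h82.NF

open Pool.Agent.Y522 Pool.Agent.L7h20.NF

variable {m : ℕ}

theorem det_comp' (A B : E (m + 1) →L[ℝ] E (m + 1)) : (A.comp B).det = A.det * B.det := by
  unfold ContinuousLinearMap.det
  rw [ContinuousLinearMap.toLinearMap_comp, LinearMap.det_comp]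

/-- the determinant is smooth -/
theorem contDiff_det : ContDiff ℝ ∞ (fun T : E (m + 1) →L[ℝ] E (m + 1) => T.det) := by
  have h1 : (fun T : E (m + 1) →L[ℝ] E (m + 1) => T.det) = fun T =>
      ∑ σ : Equiv.Perm (Fin (m + 1)), ((Equiv.Perm.sign σ : ℤ) : ℝ) *
        ∏ i, (T (EuclideanSpace.basisFun (Fin (m + 1)) ℝ i)) (σ i) := by
    funext T
    unfold ContinuousLinearMap.det
    rw [← LinearMap.det_toMatrix (EuclideanSpace.basisFun (Fin (m + 1)) ℝ).toBasis,
      Matrix.det_apply']
    refine Finset.sum_congr rfl fun σ _ => ?_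
    congr 1
    refine Finset.prod_congr rfl fun i _ => ?_
    rw [LinearMap.toMatrix_apply]
    simp
  rw [h1]
  have h2 : ∀ (v : E (m + 1)) (i : Fin (m + 1)),
      ContDiff ℝ ∞ (fun T : E (m + 1) →L[ℝ] E (m + 1) => (T v) i) := by
    intro v i
    have h3 : ContDiff ℝ ∞ (fun T : E (m + 1) →L[ℝ] E (m + 1) => T v) :=
      (ContinuousLinearMap.apply ℝ (E (m + 1)) v).contDiff
    exact (EuclideanSpace.proj (𝕜 := ℝ) i).contDiff.comp h3
  refine ContDiff.sum fun σ _ => ?_
  exact contDiff_const.mul (contDiff_prod fun i _ => h2 _ _)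

theorem hasFDerivAt_det (P : E (m + 1) →L[ℝ] E (m + 1)) :
    HasFDerivAt (fun T : E (m + 1) →L[ℝ] E (m + 1) => T.det)
      (fderiv ℝ (fun T : E (m + 1) →L[ℝ] E (m + 1) => T.det) P) P :=
  (contDiff_det.differentiable (by simp) P).hasFDerivAt

/-- the derivative along a line -/
theorem hasDerivAt_line (P Q : E (m + 1) →L[ℝ] E (m + 1)) (ε : ℝ) :
    HasDerivAt (fun ε : ℝ => (P + ε • Q).det) (dd (P + ε • Q) Q) ε := by
  have h1 : HasDerivAt (fun ε : ℝ => P + ε • Q) Q ε := by
    have h2 : HasDerivAt (fun ε : ℝ => ε • Q) ((1 : ℝ) • Q) ε :=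
      (hasDerivAt_id ε).smul_const Q
    rw [one_smul] at h2
    exact h2.const_add P
  exact (hasFDerivAt_det (P + ε • Q)).comp_hasDerivAt ε h1

theorem zs (P Q : E (m + 1) →L[ℝ] E (m + 1)) : P + (0 : ℝ) • Q = P := by
  refine ContinuousLinearMap.ext fun v => ?_
  rw [add_apply, smul_apply, zero_smul, add_zero]

theorem hasDerivAt_line0 (P Q : E (m + 1) →L[ℝ] E (m + 1)) :
    HasDerivAt (fun ε : ℝ => (P + ε • Q).det) (dd P Q) 0 := by
  have := hasDerivAt_line P Q 0
  rwa [zs] at this

/-- rank one update of the identity -/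
theorem det_id_add (s : E (m + 1) →L[ℝ] ℝ) (n : E (m + 1)) :
    (ContinuousLinearMap.id ℝ (E (m + 1)) + s.smulRight n).det = 1 + s n := by
  have h := LinearMap.transvection.det (R := ℝ) (f := (s : E (m + 1) →ₗ[ℝ] ℝ)) (v := n)
  unfold ContinuousLinearMap.det
  have e : ((ContinuousLinearMap.id ℝ (E (m + 1)) + s.smulRight n :
      E (m + 1) →L[ℝ] E (m + 1)) : E (m + 1) →ₗ[ℝ] E (m + 1)) =
      LinearMap.transvection (s : E (m + 1) →ₗ[ℝ] ℝ) n := by
    ext v
    simp [LinearMap.transvection]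
  rw [e, h]
  rfl

theorem det_tl {P : E (m + 1) →L[ℝ] E (m + 1)} (hP : ∀ v, tl (P v) = tl v) :
    P.det = (P e0) 0 := by
  obtain ⟨s, hs⟩ : ∃ s : E (m + 1) →L[ℝ] ℝ,
      s = (EuclideanSpace.proj (𝕜 := ℝ) (0 : Fin (m + 1)) : E (m + 1) →L[ℝ] ℝ).comp
        (P - ContinuousLinearMap.id ℝ (E (m + 1))) := ⟨_, rfl⟩
  have hsv : ∀ v, s v = (P v) 0 - v 0 := by
    intro v
    rw [hs]
    simp
  have e : P = ContinuousLinearMap.id ℝ (E (m + 1)) + s.smulRight e0 := by
    refine ContinuousLinearMap.ext fun v => ?_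
    have h1 : (ContinuousLinearMap.id ℝ (E (m + 1)) + s.smulRight (e0 : E (m + 1)) :
        E (m + 1) →L[ℝ] E (m + 1)) v = v + s v • e0 := by
      simp
    rw [h1, hsv]
    ext i
    refine Fin.cases ?_ (fun i => ?_) i
    · have : (e0 : E (m + 1)) 0 = 1 := rfl
      simp [this]
    · have h2 := congrArg (fun w : E m => w i) (hP v)
      simp only [tl_apply] at h2
      have : (e0 : E (m + 1)) i.succ = 0 := rfl
      simp [this, h2]
  have h3 : P.det = 1 + s e0 := by
    conv_lhs => rw [e]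
    exact det_id_add s e0
  have : (e0 : E (m + 1)) 0 = 1 := rfl
  rw [h3, hsv, this]
  ring

theorem s_DET1 : S_DET1 := by
  intro m
  refine ⟨contDiff_det, ?_, ?_, ?_⟩
  · intro P Q A B
    have h1 : (fun ε : ℝ => (A.comp (P.comp B) + ε • A.comp (Q.comp B)).det) =
        fun ε : ℝ => A.det * B.det * (P + ε • Q).det := by
      funext ε
      have : A.comp (P.comp B) + ε • A.comp (Q.comp B) = A.comp ((P + ε • Q).comp B) := by
        refine ContinuousLinearMap.ext fun v => ?_
        simp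
      rw [this, det_comp', det_comp']
      ring
    have h2 := hasDerivAt_line0 (A.comp (P.comp B)) (A.comp (Q.comp B))
    rw [h1] at h2
    exact h2.unique ((hasDerivAt_line0 P Q).const_mul _)
  · intro P s n
    have h1 : (fun ε : ℝ => (P + ε • (s.comp P).smulRight n).det) =
        fun ε : ℝ => (1 + ε * s n) * P.det := by
      funext ε
      have : P + ε • (s.comp P).smulRight n =
          (ContinuousLinearMap.id ℝ (E (m + 1)) + (ε • s).smulRight n).comp P := by
        refine ContinuousLinearMap.ext fun v => ?_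
        simp [smul_smul]
      rw [this, det_comp', det_id_add]
      simp
    have h2 := hasDerivAt_line0 P ((s.comp P).smulRight n)
    rw [h1] at h2
    have h3 : HasDerivAt (fun ε : ℝ => (1 + ε * s n) * P.det) (s n * P.det) 0 := by
      have h4 : HasDerivAt (fun ε : ℝ => 1 + ε * s n) (1 * s n) 0 :=
        ((hasDerivAt_id (0 : ℝ)).mul_const (s n)).const_add 1
      have h5 := h4.mul_const P.det
      rwa [one_mul] at h5
    exact h2.unique h3
  · intro P s hP
    refine ⟨det_tl hP, ?_⟩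
    have h1 : (fun ε : ℝ => (P + ε • s.smulRight e0).det) =
        fun ε : ℝ => (P e0) 0 + ε * s e0 := by
      funext ε
      rw [det_tl]
      · have : (e0 : E (m + 1)) 0 = 1 := rfl
        simp [this]
      · intro v
        have : tl (e0 : E (m + 1)) = 0 := by
          unfold e0
          rw [tl_cn]
        simp [hP, this]
    have h2 := hasDerivAt_line0 P (s.smulRight e0)
    rw [h1] at h2
    have h3 : HasDerivAt (fun ε : ℝ => (P e0) 0 + ε * s e0) (1 * s e0) 0 :=
      ((hasDerivAt_id (0 : ℝ)).mul_const (s e0)).const_add _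
    rw [one_mul] at h3
    exact h2.unique h3

theorem s_DET2 : S_DET2 := by
  intro m P Q z hP hQ
  have hc : Continuous (fun p : (E (m + 1) →L[ℝ] E (m + 1)) × (E (m + 1) →L[ℝ] E (m + 1)) =>
      dd p.1 p.2) := by
    have h1 : Continuous (fderiv ℝ (fun T : E (m + 1) →L[ℝ] E (m + 1) => T.det)) :=
      contDiff_det.continuous_fderiv (by simp)
    exact (h1.comp continuous_fst).clm_apply continuous_snd
  have hdc : Continuous (fun T : E (m + 1) →L[ℝ] E (m + 1) => T.det) := contDiff_det.continuous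
  have hj : ContinuousAt (fun p : E (m + 1) × ℝ => P p.1 + p.2 • Q p.1) (z, 0) := by
    have h1 : ContinuousAt (fun p : E (m + 1) × ℝ => P p.1) (z, (0 : ℝ)) :=
      ContinuousAt.comp (f := fun p : E (m + 1) × ℝ => p.1) (g := P) hP continuousAt_fst
    have h2 : ContinuousAt (fun p : E (m + 1) × ℝ => Q p.1) (z, (0 : ℝ)) :=
      ContinuousAt.comp (f := fun p : E (m + 1) × ℝ => p.1) (g := Q) hQ continuousAt_fst
    exact h1.add (continuousAt_snd.smul h2)
  constructor
  · intro hnn hpos
    have h1 : ContinuousAt (fun p : E (m + 1) × ℝ => dd (P p.1 + p.2 • Q p.1) (Q p.1)) (z, 0) := by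
      have h2 : ContinuousAt (fun p : E (m + 1) × ℝ => Q p.1) (z, (0 : ℝ)) :=
        ContinuousAt.comp (f := fun p : E (m + 1) × ℝ => p.1) (g := Q) hQ continuousAt_fst
      exact hc.continuousAt.comp (hj.prodMk h2)
    have h2 : 0 < (fun p : E (m + 1) × ℝ => dd (P p.1 + p.2 • Q p.1) (Q p.1)) (z, 0) := by
      simp only
      rw [zs]
      exact hpos
    have h3 := h1.eventually (lt_mem_nhds h2)
    rw [nhds_prod_eq, Filter.eventually_prod_iff] at h3
    obtain ⟨pa, ha, pb, hb, hab⟩ := h3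
    obtain ⟨η, hη, hηb⟩ := Metric.eventually_nhds_iff.1 hb
    refine ⟨η, hη, ?_⟩
    filter_upwards [ha, hnn] with w hw hw0 ε hε0 hεη
    have hder : ∀ e : ℝ, HasDerivAt (fun ε : ℝ => (P w + ε • Q w).det)
        (dd (P w + e • Q w) (Q w)) e := fun e => hasDerivAt_line (P w) (Q w) e
    obtain ⟨c, hc1, hc2⟩ := exists_hasDerivAt_eq_slope (fun ε : ℝ => (P w + ε • Q w).det)
      (fun e => dd (P w + e • Q w) (Q w)) hε0
      (fun e _ => (hder e).continuousAt.continuousWithinAt) (fun e _ => hder e)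
    have h4 : 0 < dd (P w + c • Q w) (Q w) := by
      refine hab hw (hηb ?_)
      rw [Real.dist_0_eq_abs, abs_of_pos hc1.1]
      exact hc1.2.trans hεη
    rw [hc2] at h4
    simp only [sub_zero] at h4
    rw [zs] at h4
    have h5 : 0 < (P w + ε • Q w).det - (P w).det := by
      by_contra hcon
      push Not at hcon
      exact absurd h4 (not_lt.2 (div_nonpos_of_nonpos_of_nonneg hcon hε0.le))
    linarith
  · intro hne
    have h1 : ContinuousAt (fun p : E (m + 1) × ℝ => (P p.1 + p.2 • Q p.1).det) (z, 0) :=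
      ContinuousAt.comp (f := fun p : E (m + 1) × ℝ => P p.1 + p.2 • Q p.1)
        (g := fun T : E (m + 1) →L[ℝ] E (m + 1) => T.det) hdc.continuousAt hj
    have h2 : (fun p : E (m + 1) × ℝ => (P p.1 + p.2 • Q p.1).det) (z, 0) ≠ 0 := by
      simp only
      rw [zs]
      exact hne
    have h3 := h1.eventually_ne h2
    rw [nhds_prod_eq, Filter.eventually_prod_iff] at h3
    obtain ⟨pa, ha, pb, hb, hab⟩ := h3
    obtain ⟨η, hη, hηb⟩ := Metric.eventually_nhds_iff.1 hb
    refine ⟨η, hη, ?_⟩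
    filter_upwards [ha] with w hw ε hε0 hεη
    refine hab hw (hηb ?_)
    rw [Real.dist_0_eq_abs, abs_of_pos hε0]
    exact hεη

end Pool.Agent.L7h82.NF
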